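import Mathlib

/-!
Elementary sums for the dilation invariance
-/

set_option autoImplicit false

namespace Pool.Agent.W64.EC

open Finset

/-- `∑_{y ≤ X ≤ N} 1/X^2` -/
noncomputable def HH (N : ℕ) (y : ℝ) : ℝ := ∑ X ∈ Icc 1 N, if y ≤ (X : ℝ) then 1 / (X : ℝ) ^ 2 else 0

theorem HH_zero {N : ℕ} {y : ℝ} (h : (N : ℝ) < y) : HH N y = 0 := by
  unfold HH
  refine sum_eq_zero fun X hX => ?_
  have h1 : (X : ℝ) ≤ N := by exact_mod_cast (mem_Icc.mp hX).2
  rw [if_neg (by linarith)]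

theorem HH_nonneg (N : ℕ) (y : ℝ) : 0 ≤ HH N y := by
  unfold HH
  refine sum_nonneg fun X _ => ?_
  split_ifs
  · positivity
  · exact le_rfl

theorem tail_bd {m N : ℕ} (hm : 1 ≤ m) (hmN : m ≤ N) :
    1 / (m : ℝ) - 1 / ((N : ℝ) + 1) ≤ ∑ X ∈ Icc m N, 1 / (X : ℝ) ^ 2 ∧
      ∑ X ∈ Icc m N, 1 / (X : ℝ) ^ 2 ≤ 1 / (m : ℝ) ^ 2 + 1 / (m : ℝ) - 1 / (N : ℝ) := by
  have hm0 : (0 : ℝ) < m := by exact_mod_cast hm
  induction N, hmN using Nat.le_induction with
  | base =>
    rw [Icc_self, sum_singleton]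
    constructor
    · rw [div_sub_div _ _ hm0.ne' (by positivity), div_le_div_iff₀ (by positivity) (by positivity)]
      nlinarith
    · linarith
  | succ n hmn ih =>
    have hn0 : (0 : ℝ) < n := by
      have : (m : ℝ) ≤ n := by exact_mod_cast hmn
      linarith
    rw [sum_Icc_succ_top (by omega)]
    push_cast
    have e1 : 1 / ((n : ℝ) + 1) - 1 / ((n : ℝ) + 1 + 1) ≤ 1 / ((n : ℝ) + 1) ^ 2 := by
      rw [div_sub_div _ _ (by positivity) (by positivity),
        div_le_div_iff₀ (by positivity) (by positivity)]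
      nlinarith
    have e2 : 1 / ((n : ℝ) + 1) ^ 2 ≤ 1 / (n : ℝ) - 1 / ((n : ℝ) + 1) := by
      rw [div_sub_div _ _ (by positivity) (by positivity),
        div_le_div_iff₀ (by positivity) (by positivity)]
      nlinarith
    constructor
    · linarith [ih.1]
    · linarith [ih.2]

theorem HH_bd {N : ℕ} {y : ℝ} (hy : 1 ≤ y) (hyN : y ≤ N) :
    |HH N y - (1 / y - 1 / (N : ℝ))| ≤ 1 / y ^ 2 := by
  have hy0 : 0 < y := by linarith
  have hN0 : (0 : ℝ) < N := by linarith
  set m := ⌈y⌉₊ with hm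
  have hm1 : 1 ≤ m := by
    rw [hm, Nat.one_le_ceil_iff]
    exact hy0
  have hmN : m ≤ N := Nat.ceil_le.mpr hyN
  have hmy : y ≤ m := Nat.le_ceil y
  have hmy2 : (m : ℝ) < y + 1 := Nat.ceil_lt_add_one hy0.le
  have hm0 : (0 : ℝ) < m := by linarith
  have hHH : HH N y = ∑ X ∈ Icc m N, 1 / (X : ℝ) ^ 2 := by
    unfold HH
    rw [← sum_filter]
    congr 1
    ext X
    rw [mem_filter, mem_Icc, mem_Icc, hm, Nat.ceil_le]
    constructor
    · rintro ⟨⟨h1, h2⟩, h3⟩
      exact ⟨h3, h2⟩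
    · rintro ⟨h3, h2⟩
      refine ⟨⟨?_, h2⟩, h3⟩
      have : (1 : ℝ) ≤ X := hy.trans h3
      exact_mod_cast this
  obtain ⟨h1, h2⟩ := tail_bd hm1 hmN
  rw [← hHH] at h1 h2
  have e1 : 1 / (m : ℝ) ≤ 1 / y := one_div_le_one_div_of_le hy0 hmy
  have e2 : 1 / (m : ℝ) ^ 2 ≤ 1 / y ^ 2 := one_div_le_one_div_of_le (by positivity)
    (pow_le_pow_left₀ hy0.le hmy 2)
  have e3 : 1 / y - 1 / y ^ 2 ≤ 1 / (m : ℝ) := by
    have e4 : 1 / (y + 1) ≤ 1 / (m : ℝ) := one_div_le_one_div_of_le hm0 hmy2.le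
    have e5 : 1 / y - 1 / y ^ 2 ≤ 1 / (y + 1) := by
      rw [div_sub_div _ _ hy0.ne' (by positivity), div_le_div_iff₀ (by positivity) (by positivity)]
      nlinarith
    linarith
  have e6 : 1 / ((N : ℝ) + 1) ≤ 1 / (N : ℝ) := one_div_le_one_div_of_le hN0 (by linarith)
  rw [abs_le]
  constructor <;> linarith

theorem delta {p N : ℕ} (hp : 1 ≤ p) (hN : 1 ≤ N) {m u : ℝ} (hm : 1 ≤ m) (hmu : m ≤ u) :
    |(p : ℝ) * HH N (p * u) - HH N u| ≤ min (1 / m) ((p : ℝ) / N) + 2 / m ^ 2 := by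
  have hp1 : (1 : ℝ) ≤ p := by exact_mod_cast hp
  have hp0 : (0 : ℝ) < p := by linarith
  have hN0 : (0 : ℝ) < N := by exact_mod_cast hN
  have hm0 : 0 < m := by linarith
  have hu0 : 0 < u := by linarith
  have hu1 : 1 ≤ u := hm.trans hmu
  have hpu : u ≤ p * u := by nlinarith
  have e1 : 1 / u ≤ 1 / m := one_div_le_one_div_of_le hm0 hmu
  have e2 : 1 / u ^ 2 ≤ 1 / m ^ 2 := one_div_le_one_div_of_le (by positivity)
    (pow_le_pow_left₀ hm0.le hmu 2)
  have e3 : 2 / m ^ 2 = 1 / m ^ 2 + 1 / m ^ 2 := by ring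
  have hmin0 : 0 ≤ min (1 / m) ((p : ℝ) / N) := le_min (by positivity) (by positivity)
  rcases lt_or_ge (N : ℝ) u with h1 | h1
  · rw [HH_zero h1, HH_zero (h1.trans_le hpu), mul_zero, sub_zero, abs_zero]
    positivity
  · have b1 := abs_le.mp (HH_bd hu1 h1)
    rcases lt_or_ge (N : ℝ) (p * u) with h2 | h2
    · rw [HH_zero h2, mul_zero, zero_sub, abs_neg, abs_of_nonneg (HH_nonneg _ _)]
      have e4 : 1 / u ≤ (p : ℝ) / N := by
        rw [div_le_div_iff₀ hu0 hN0]
        linarith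
      have e5 : 1 / u ≤ min (1 / m) ((p : ℝ) / N) := le_min e1 e4
      have e6 : 0 ≤ 1 / (N : ℝ) := by positivity
      have e7 : 0 ≤ 1 / m ^ 2 := by positivity
      linarith [b1.2]
    · have b2 := abs_le.mp (HH_bd (hu1.trans hpu) h2)
      have e4 : (p : ℝ) / N ≤ 1 / u := by
        rw [div_le_div_iff₀ hN0 hu0]
        linarith
      have e5 : (p : ℝ) / N ≤ min (1 / m) ((p : ℝ) / N) := le_min (e4.trans e1) le_rfl
      have e6 : (p : ℝ) * (1 / (p * u) - 1 / N) = 1 / u - p / N := by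
        field_simp
      have e7 : (p : ℝ) * (1 / (p * u) ^ 2) ≤ 1 / u ^ 2 := by
        rw [mul_one_div, div_le_div_iff₀ (by positivity) (by positivity), mul_pow]
        nlinarith [sq_nonneg u, mul_pos hp0 (pow_pos hu0 2)]
      have e8 : 1 / (N : ℝ) ≤ (p : ℝ) / N := div_le_div_of_nonneg_right hp1 hN0.le
      have e9 : 0 ≤ 1 / (N : ℝ) := by positivity
      have c1 := mul_le_mul_of_nonneg_left b2.1 hp0.le
      have c2 := mul_le_mul_of_nonneg_left b2.2 hp0.le
      rw [mul_sub, e6] at c1 c2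
      rw [abs_le]
      constructor
      · linarith [b1.1, b1.2]
      · linarith [b1.1, b1.2]

theorem abel {ι : Type*} (s : Finset ι) (k : ι → ℕ) (f : ℕ → ℝ) (C : ℝ)
    (hk : ∀ e ∈ s, 1 ≤ k e) (hf : ∀ m, 1 ≤ m → f (m + 1) ≤ f m)
    (hC : ∀ m : ℕ, ((s.filter (fun e => k e ≤ m)).card : ℝ) ≤ C * m) (N : ℕ) :
    ∑ e ∈ s.filter (fun e => k e ≤ N), f (k e) +
      (C * N - ((s.filter (fun e => k e ≤ N)).card : ℝ)) * f N ≤ C * ∑ m ∈ Icc 1 N, f m := by
  classical
  induction N with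
  | zero =>
    have h1 : s.filter (fun e => k e ≤ 0) = ∅ := by
      rw [filter_eq_empty_iff]
      intro e he h
      have := hk e he
      omega
    rw [h1]
    simp
  | succ n ih =>
    have hsplit : s.filter (fun e => k e ≤ n + 1) =
        s.filter (fun e => k e ≤ n) ∪ s.filter (fun e => k e = n + 1) := by
      ext e
      simp only [mem_union, mem_filter]
      constructor
      · rintro ⟨h1, h2⟩
        rcases Nat.lt_or_ge n (k e) with h3 | h3
        · exact Or.inr ⟨h1, by omega⟩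
        · exact Or.inl ⟨h1, h3⟩
      · rintro (⟨h1, h2⟩ | ⟨h1, h2⟩)
        · exact ⟨h1, by omega⟩
        · exact ⟨h1, by omega⟩
    have hdisj : Disjoint (s.filter (fun e => k e ≤ n)) (s.filter (fun e => k e = n + 1)) := by
      rw [disjoint_left]
      intro e h1 h2
      have h3 := (mem_filter.mp h1).2
      have h4 := (mem_filter.mp h2).2
      omega
    rw [hsplit, sum_union hdisj, card_union_of_disjoint hdisj, sum_Icc_succ_top (by omega)]
    have h5 : ∑ e ∈ s.filter (fun e => k e = n + 1), f (k e) =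
        ((s.filter (fun e => k e = n + 1)).card : ℝ) * f (n + 1) := by
      rw [sum_congr rfl (fun e he => by rw [(mem_filter.mp he).2]), sum_const, nsmul_eq_mul]
    rw [h5]
    push_cast
    have h6 := hC n
    rcases Nat.eq_zero_or_pos n with rfl | hn
    · have h1 : s.filter (fun e => k e ≤ 0) = ∅ := by
        rw [filter_eq_empty_iff]
        intro e he h
        have := hk e he
        omega
      rw [h1] at ih ⊢
      simp only [sum_empty, card_empty, Nat.cast_zero, mul_zero, sub_zero, zero_mul, add_zero,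
        zero_add] at ih ⊢
      have : Icc 1 0 = (∅ : Finset ℕ) := rfl
      rw [this, sum_empty]
      nlinarith
    · have h7 := hf n hn
      nlinarith

theorem sum_inv_sq (N : ℕ) : ∑ m ∈ Icc 1 N, 1 / (m : ℝ) ^ 2 ≤ 2 := by
  rcases Nat.eq_zero_or_pos N with rfl | hN
  · simp
  · have h1 := (tail_bd le_rfl hN).2
    have h2 : 0 ≤ 1 / (N : ℝ) := by positivity
    simp only [Nat.cast_one] at h1
    linarith

theorem log_bd {k N : ℕ} (hk : 1 ≤ k) (hkN : k ≤ N) :
    ∑ m ∈ Ioc k N, 1 / (m : ℝ) ≤ Real.log ((N : ℝ) / k) := by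
  have hk0 : (0 : ℝ) < k := by exact_mod_cast hk
  induction N, hkN using Nat.le_induction with
  | base => simp [div_self hk0.ne']
  | succ n hkn ih =>
    have hn0 : (0 : ℝ) < n := by
      have : (k : ℝ) ≤ n := by exact_mod_cast hkn
      linarith
    rw [sum_Ioc_succ_top (by omega)]
    have h1 : Real.log (((n + 1 : ℕ) : ℝ) / k) =
        Real.log ((n : ℝ) / k) + Real.log ((n + 1 : ℝ) / n) := by
      rw [← Real.log_mul (by positivity) (by positivity)]
      congr 1
      push_cast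
      field_simp
    rw [h1]
    have h2 : 1 / ((n + 1 : ℕ) : ℝ) ≤ Real.log ((n + 1 : ℝ) / n) := by
      have h3 := Real.one_sub_inv_le_log_of_pos (x := (n + 1 : ℝ) / n) (by positivity)
      have h4 : 1 - ((n + 1 : ℝ) / n)⁻¹ = 1 / ((n + 1 : ℕ) : ℝ) := by
        push_cast
        field_simp
        ring
      linarith
    linarith

theorem min_sum {p N : ℕ} (hp : 1 ≤ p) (hN : 1 ≤ N) :
    ∑ m ∈ Icc 1 N, min (1 / (m : ℝ)) ((p : ℝ) / N) ≤ 2 + Real.log p := by
  have hp0 : (0 : ℝ) < p := by exact_mod_cast hp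
  have hN0 : (0 : ℝ) < N := by exact_mod_cast hN
  rcases le_or_gt N p with h | h
  · have h1 : ∑ m ∈ Icc 1 N, min (1 / (m : ℝ)) ((p : ℝ) / N) ≤ ∑ m ∈ Icc 1 N, 1 / (m : ℝ) :=
      sum_le_sum fun m _ => min_le_left _ _
    have h2 : ∑ m ∈ Icc 1 N, 1 / (m : ℝ) = (harmonic N : ℝ) := by
      rw [harmonic_eq_sum_Icc]
      push_cast
      refine sum_congr rfl fun m _ => one_div _
    have h3 := harmonic_le_one_add_log N
    have h4 : Real.log N ≤ Real.log p := Real.log_le_log hN0 (by exact_mod_cast h)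
    linarith
  · set k := N / p with hk
    have hk1 : 1 ≤ k := (Nat.one_le_div_iff (by omega)).mpr h.le
    have hkN : k ≤ N := Nat.div_le_self N p
    have hkp : k * p ≤ N := Nat.div_mul_le_self N p
    have hk2 : N < (k + 1) * p := by
      have := Nat.lt_mul_div_succ N (show 0 < p by omega)
      rw [← hk] at this
      linarith [mul_comm (k + 1) p]
    have hk0 : (0 : ℝ) < k := by exact_mod_cast hk1
    have hsplit : Icc 1 N = Icc 1 k ∪ Ioc k N := by
      ext m
      simp only [mem_union, mem_Icc, mem_Ioc]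
      omega
    have hdisj : Disjoint (Icc 1 k) (Ioc k N) := by
      rw [disjoint_left]
      intro m h1 h2
      rw [mem_Icc] at h1
      rw [mem_Ioc] at h2
      omega
    rw [hsplit, sum_union hdisj]
    have h1 : ∑ m ∈ Icc 1 k, min (1 / (m : ℝ)) ((p : ℝ) / N) ≤ 1 := by
      refine (sum_le_sum fun m _ => min_le_right _ _).trans ?_
      rw [sum_const, Nat.card_Icc, nsmul_eq_mul, Nat.add_sub_cancel, mul_div_assoc',
        div_le_one hN0]
      exact_mod_cast hkp
    have h2 : ∑ m ∈ Ioc k N, min (1 / (m : ℝ)) ((p : ℝ) / N) ≤ Real.log ((N : ℝ) / k) :=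
      (sum_le_sum fun m _ => min_le_left _ _).trans (log_bd hk1 hkN)
    have h3 : Real.log ((N : ℝ) / k) ≤ 1 + Real.log p := by
      have h4 : (N : ℝ) / k ≤ 2 * p := by
        rw [div_le_iff₀ hk0]
        have h5 : (N : ℝ) ≤ (k + 1) * p := by exact_mod_cast hk2.le
        have h6 : (1 : ℝ) ≤ k := by exact_mod_cast hk1
        nlinarith
      have h5 := Real.log_le_log (by positivity) h4
      rw [Real.log_mul (by norm_num) hp0.ne'] at h5
      have h6 := Real.log_two_lt_d9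
      linarith
    linarith

end Pool.Agent.W64.EC
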